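import Mathlib
import Pool.Agent.H64GF.Comp

/-!
# Family equivalence of grammar forms is undecidable

The definitions (codes of grammars, `IsGrammar`, `IsLinear`, `Step`, `lang`, `InterpBy`, `family`)
are in `Pool.Agent.H64GF.Defs`.

Idea. Let `p` be the word which lists all terminals once. For an instance `(g, h)` of the Post
correspondence problem with four pairs the words `p x # y`, where `x` codes a sequence of indices and
`y` is a word over the alphabet of the instance, such that `y` is not at the same time the image of
the reversal of `x` under `g` and under `h`, are generated by a linear grammar `G₁`. Let `G₂` be
`G₁` with one additional production `S → p W`, where `W` generates all the words `x # y` by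
right-linear productions.

If the instance has a solution, then the language of `G₂` contains a critical word `p x # y`, and
this language is not in the family of `G₁`: the letter-to-letter morphism onto `G₁` has to fix all
letters because of the word `p`.

If there is no solution, then an interpretation of `G₂` generates the union of a language of an
interpretation of `G₁` and of a regular language `R`, both with the same substitution of the
terminals, and `R` is the language of the product of `G₁` with a finite automaton for `R`. This
product is an interpretation of `G₁`, whatever the structure of `G₁` is.
-/

set_option autoImplicit false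

namespace Pool.Agent.Results.MP_3cd25e_lc.FamilyEquivalence

open Pool.Agent.H64GF

/-- **Family equivalence of context-free grammars is undecidable.** (1) The set of the pairs of
context-free grammars with the same grammatical family is not recursive. (2) There is even no
algorithm which decides family equivalence correctly for all pairs of linear grammars. -/
theorem result :
    (¬ ComputablePred (fun p : Code × Code =>
      p.1.IsGrammar ∧ p.2.IsGrammar ∧ p.1.family = p.2.family)) ∧
    ¬ ∃ A : Code × Code → Prop, ComputablePred A ∧ ∀ G₁ G₂ : Code,
      G₁.IsGrammar → G₂.IsGrammar → G₁.IsLinear → G₂.IsLinear →
        (A (G₁, G₂) ↔ G₁.family = G₂.family) := by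
  obtain ⟨c, d, hc, hd, hok, hund⟩ := exists_family
  have hcd : Computable (fun n => (c n, d n)) := hc.pair hd
  constructor
  · intro h
    apply hund
    refine ComputablePred.computable_of_manyOneReducible
      (q := fun p : Code × Code => p.1.IsGrammar ∧ p.2.IsGrammar ∧ p.1.family = p.2.family)
      ⟨fun n => (c n, d n), hcd, fun n => ?_⟩ h
    constructor
    · intro h1
      exact ⟨(hok n).1, (hok n).2.1, h1⟩
    · intro h1
      exact h1.2.2
  · rintro ⟨A, hA, h⟩
    apply hund
    refine ComputablePred.computable_of_manyOneReducible (q := A)
      ⟨fun n => (c n, d n), hcd, fun n => ?_⟩ hA
    obtain ⟨h1, h2, h3, h4⟩ := hok n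
    exact (h (c n) (d n) h1 h2 h3 h4).symm

end Pool.Agent.Results.MP_3cd25e_lc.FamilyEquivalence
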